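import Pool.Agent.SZT.StmtsA
import Pool.Agent.SZT.StmtsC

set_option autoImplicit false

/-!
# AQT (MP_160b6c_nt): the one-place bound with the constants 1/4 and 2

`1/4 log |dsc| - 2 log rho - C ≤ Lv` instead of `1/2 log |dsc| - 7 log rho - C ≤ Lv` (A-OUT of SZT).
-/

namespace Pool.Agent.AQT

open Polynomial NumberField H58Q Pool.Agent.SZT
open Pool.Agent.MNT (QU vC)
open scoped Classical

/-- the greatest of the four numbers `h k`, `k ≠ i` -/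
noncomputable def amax (h : Fin 5 → ℝ) (i : Fin 5) : ℝ :=
  ⨆ k : {k : Fin 5 // k ≠ i}, h k

/-- the sum of the four numbers `h k`, `k ≠ i` -/
def star (h : Fin 5 → ℝ) (i : Fin 5) : ℝ := ∑ k ∈ Finset.univ.erase i, h k

/-- the defect `T` of a point at depth `η`, when the other point has depth `δ` -/
noncomputable def TQ (h : Fin 5 → ℝ) (i : Fin 5) (η δ : ℝ) : ℝ :=
  if η ≤ 0 then 4 * η - min η δ
  else if η ≤ amax h i then
    (η + ∑ k ∈ Finset.univ.erase i, min η (h k)) - η / amax h i * (η + min (amax h i) δ)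
      - (1 - η / amax h i) * min 0 δ
  else star h i - min η δ

/-- **Row PUI** (pure inequality). -/
def PuiStmt : Prop := ∀ (H : Fin 5 → Fin 5 → ℝ) (i j : Fin 5) (c₀ η ζ δ δ' : ℝ), 0 ≤ c₀ →
    (∀ k l, H k l = H l k) → (∀ k l, k ≠ l → 0 ≤ H k l) →
    (∀ k l m, k ≠ l → l ≠ m → k ≠ m → min (H k l) (H l m) - c₀ ≤ H k m) →
    (i = j → δ = ζ ∧ δ' = η) →
    (i ≠ j → min ζ (H i j) - c₀ ≤ δ ∧ min η (H i j) - c₀ ≤ δ') →
    TQ (H i) i η δ + TQ (H j) j ζ δ' ≤ 1 / 2 * ∑ k, star (H k) k + 5 * c₀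

/-- **Row PTQ** (one point; uses CVX, UVL). `R₁ = exp c₀ * ρ`, depths relative to `log R₁`. -/
def PtqStmt : Prop := ∀ (E : Type) [Field E] (v : AbsoluteValue E ℝ) (c₀ e : ℝ), QU v c₀ → 0 ≤ e →
    ∀ (θ : Fin 5 → E) (a : Fin 2 → E) (N : ℕ) (U W : E[X]), Function.Injective θ → U.Splits →
    Sol2 (∏ i, (X - C (θ i))) a N U W → Good2 v c₀ e θ U.roots a →
    ∀ (ρ : ℝ), 0 < ρ → (∀ k l, v (θ k - θ l) ≤ ρ) → ∀ (j : Fin 2) (i : Fin 5),
    (∀ l k, a l ≠ θ k) → (∀ k, v (a j - θ i) ≤ v (a j - θ k)) →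
    3 * (c₀ + Real.log ρ)
        - TQ (fun k => c₀ + Real.log ρ - Real.log (v (θ i - θ k))) i
            (c₀ + Real.log ρ - Real.log (v (a j - θ i)))
            (c₀ + Real.log ρ - Real.log (v (a (1 - j) - θ i)))
        - 6 * c₀ - e ≤
      2 * (1 / 2 * Real.log (v ((∏ k, (X - C (θ k))).eval (a j))) -
        1 / (2 * (N : ℝ)) * Real.log (v (U.eval (a j))))

/-- **Row CMQ** (uses PTQ, PUI). -/
def CmqStmt : Prop := ∀ (E : Type) [Field E] (v : AbsoluteValue E ℝ) (c₀ e : ℝ), QU v c₀ → 0 ≤ e →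
    ∀ (θ : Fin 5 → E) (a : Fin 2 → E) (N : ℕ) (U W : E[X]), Function.Injective θ → U.Splits →
    Sol2 (∏ i, (X - C (θ i))) a N U W → Good2 v c₀ e θ U.roots a → (∀ j k, a j ≠ θ k) →
    ∀ (ρ : ℝ), 0 < ρ → (∀ k l, v (θ k - θ l) ≤ ρ) →
    1 / 4 * Real.log (v (dsc θ)) - 2 * Real.log ρ - 11 * c₀ - e ≤
      ∑ j, (1 / 2 * Real.log (v ((∏ k, (X - C (θ k))).eval (a j))) -
        1 / (2 * (N : ℝ)) * Real.log (v (U.eval (a j))))

/-- **A-OUT with the new constants** (row AOQ; uses CMQ, TRF, OKN, OKA). -/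
def AoqStmt : Prop :=
  ∃ c2 ci : ℝ, 0 ≤ c2 ∧ 0 ≤ ci ∧
    (∀ (L : Type) [Field L] (v : AbsoluteValue L ℝ) (θ : Fin 5 → L)
      (A U W : L[X]) (M : ℕ), IsNonarchimedean v → (2 : L) ≠ 0 → Function.Injective θ → A.Monic →
      A.natDegree = 2 → A.Splits → U.Splits → IsCoprime A U → 0 < M → Even M →
      U ^ 2 - (∏ i, (X - C (θ i))) * W ^ 2 = A ^ M →
      (1 / 4) * Real.log (v (dsc θ)) - 2 * Real.log (rho v θ) + c2 * Real.log (v 2)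
        ≤ Lv v (∏ i, (X - C (θ i))) A U M) ∧
    (∀ (θ : Fin 5 → ℂ) (A U W : ℂ[X]) (M : ℕ), Function.Injective θ → A.Monic →
      A.natDegree = 2 → IsCoprime A U → 0 < M → Even M →
      U ^ 2 - (∏ i, (X - C (θ i))) * W ^ 2 = A ^ M →
      (1 / 4) * Real.log ‖dsc θ‖ - 2 * Real.log (rho (fun z : ℂ => ‖z‖) θ) - ci
        ≤ Lv (fun z : ℂ => ‖z‖) (∏ i, (X - C (θ i))) A U M)

/-- **Row LIQ** (infinite places; uses AOQ, DSR). -/
def LiqStmt : Prop :=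
  ∃ ci : ℝ, 0 ≤ ci ∧ ∀ (K : Type) [Field K] [NumberField K] (v : InfinitePlace K)
    (f A B U W : K[X]) (M : ℕ), f.Monic → f.natDegree = 5 → Squarefree f → Good f A B →
    IsCoprime A U → 0 < M → Even M → U ^ 2 - f * W ^ 2 = A ^ M →
    (1 / 4) * Real.log (v (discr f)) - 2 * Real.log (spr (f.map v.embedding)) - ci
      ≤ Lv v f A U M

/-- **Row LFQ** (finite places; uses AOQ, DSR, EXT1, EV). -/
def LfqStmt : Prop :=
  ∃ c2 : ℝ, 0 ≤ c2 ∧ ∀ (K : Type) [Field K] [NumberField K] (v : FinitePlace K)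
    (f A B U W : K[X]) (M : ℕ), f.Monic → f.natDegree = 5 → Squarefree f →
    (∀ n, v (f.coeff n) ≤ 1) → Good f A B → IsCoprime A U → 0 < M → Even M →
    U ^ 2 - f * W ^ 2 = A ^ M →
    (1 / 4) * Real.log (v (discr f)) + c2 * Real.log (v 2) ≤ Lv v f A U M

/-- **Row MSQ** (main inequality; uses CNT, PEL, PFS, LIQ, LFQ, BOUT, AVG, DSH, QVN). -/
def MsqStmt : Prop :=
  ∃ Cc : ℝ, 0 ≤ Cc ∧ ∀ (K : Type) [Field K] [NumberField K] (f A₁ B₁ : K[X]) (m₀ n₀ N : ℕ)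
    (A B : ℕ → K[X]) (S : Finset (FinitePlace K)), f.Monic → f.natDegree = 5 → Squarefree f →
    (∀ n, IsIntegral ℤ (f.coeff n)) → Mum f A₁ B₁ → 0 < N → 0 < m₀ →
    (∀ n, 0 < n → n ≤ n₀ → n ∣ m₀) →
    ((MI f A₁ B₁) ^ (m₀ * N)).IsPrincipal →
    (∀ j, 0 < j → j < N → ¬ ((MI f A₁ B₁) ^ (m₀ * j)).IsPrincipal) →
    (∀ k, Mum f (A k) (B k) ∧ (A k).natDegree ≤ 2 ∧
      SameCl (MI f (A k) (B k)) ((MI f A₁ B₁) ^ (m₀ * k))) →
    (∀ v ∈ S, NodeShape v.val f ∧ v (discr f) < 1) →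
    ∃ G : ℕ, N ≤ G + (6 * (Nat.sqrt (2 * N) + 1) + 2) ∧ G ≤ N ∧
      (G : ℝ) * ((1 / 4) * (- ∑ v ∈ S, Real.log (v (discr f))) - 2 * lH f
        - Cc * Module.finrank ℚ K) ≤
      (N / 6 : ℝ) * (- ∑ v ∈ S with
        v (discr f) * (Ideal.absNorm v.maximalIdeal.asIdeal : ℝ) ^ n₀ < 1, Real.log (v (discr f)))

/-- **The theorem** (row FIQ; uses MSQ, REX, DSH, QVN, GPR, DED): if
`sum_S (2 log N v + log |disc f|_v^(-1)) >= (24 + ε) log H`, then all torsion points of `J(K)` have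
order at most `B(d, ε)`. -/
def SzqStmt : Prop :=
  ∀ (d : ℕ) (ε : ℝ), 0 < ε → ∃ B : ℕ, ∀ (K : Type) [Field K] [NumberField K],
    Module.finrank ℚ K ≤ d → ∀ (Y : UBT.OddCurve K), Y.f.Monic → Y.f.natDegree = 5 →
    (∀ n, IsIntegral ℤ (Y.f.coeff n)) →
    ∀ S : Finset (FinitePlace K), (∀ v ∈ S, NodeShape v.val Y.f ∧ v (discr Y.f) < 1) →
    (24 + ε) * lH Y.f ≤ ∑ v ∈ S, (2 * Real.log (Ideal.absNorm v.maximalIdeal.asIdeal) +
      (- Real.log (v (discr Y.f)))) →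
    ∀ c : Y.Jac, IsOfFinOrder c → orderOf c ≤ B

end Pool.Agent.AQT
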